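import Pool.Agent.Work.MP_701abf_gt.F5.Fin2

/-!
# MP_701abf_gt: the Adams 5-line

Let `Ext = Ext_A(F_2, F_2)`. There are `U`, `J` such that for every degree `t` which is not of the
form `2 ^ a u` with `u ≤ U`, and every class `x` in `Ext^{5,t}`, with Sq^0-family `x_0, x_1, …`, one
of the following holds.

1. `x_j = 0` for all `j ≥ J`.
2. `h_0 Sq^1 x_j ≠ 0` for all `j ≥ J`.
3. There is a class `y` on the 4-line such that for all `j ≥ 0`: `x_{J+j+1} = Sq^1 y_j`, the class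
   `h_1 Sq^2 x_{J+j}` is not divisible by `h_0`, and all classes in `Ext^{6,T+1}` are divisible by
   `h_0`, where `T = 2 ^ (J+j+1) t`.
4. `x_{J+j+1} = Sq^1 (z_j h_{a+j})` for all `j ≥ 0`, for some `a` and a class `z` on the 3-line with
   `Sq^2 z_j = 0`, `Sq^2 Sq^1 z_j = 0` for all `j`.
5. `x_{J+j+1} = Sq^1 (h_{a+j} h_{b+j} h_{c+j} h_{d+j})` and `h_{a+j}² h_{b+j}² = 0`,
   `h_{c+j}² h_{d+j}² = 0` for all `j ≥ 0`, for some `a`, `b`, `c`, `d` with `b ≥ a + 2`, `d ≥ c + 2`.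

Conversely, in the cases 4 and 5 `Sq^1 x_j = 0` and `Sq^2 x_j = 0` for all `j ≥ J`.

By Bruner's formulas `d_2 x_{j+1} = h_0 Sq^1 x_j` for large `j`, and in case 3
`d_3 x_{J+j+1} = Sq^2 (d_2 y_j) = Sq^2 (h_0 x_{J+j}) = h_1 Sq^2 x_{J+j}` in `E_3` for large `j`
(`Sq^1 x_{J+j} = 0` by the Adem relations), where the image of `d_2` in this degree consists of
multiples of `h_0`, as `Ext^{6,T+1} = h_0 Ext^{5,T}`. So in the first three cases only finitely many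
`x_j` survive. In case 5, by Adams's relations, `h_a² h_b² = 0` with `b ≥ a + 2` holds only for
`b = a + 2` and `b = a + 3`.
The excluded degrees `2 ^ a u`, `u ≤ U`, contain only finitely many Sq^0-families.

Definitions (cobar complex of the dual Steenrod algebra) are in
`Pool.Agent.Work.MP_701abf_gt.Cob.Defs`, `Pool.Agent.Work.MP_701abf_gt.Cob.OpsDefs`,
`Pool.Agent.Work.MP_701abf_gt.SN.Cup`, `Pool.Agent.Work.MP_701abf_gt.FL.HDefs` and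
`Pool.Agent.Work.MP_701abf_gt.F5.HDefs`.
-/

namespace Pool.Agent.Results.MP_701abf_gt.FiveLine

open Pool.Agent.Work.MP_701abf_gt.Cob Pool.Agent.Work.MP_701abf_gt.SN
open Pool.Agent.Work.MP_701abf_gt.FL Pool.Agent.Work.MP_701abf_gt.F5

/-- There are `U`, `J` such that for every `t` which is not `2 ^ a u` with `u ≤ U` and every cocycle
`p` of degree `(5, t)` with class `x`: all `(Sq^0)^j x` with `j ≥ J` vanish; or
`Sq^1 ((Sq^0)^j x) · h_0 ≠ 0` for all `j ≥ J`; or there is a cocycle `q` of degree `(4, 2 ^ J t)`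
with `(Sq^0)^(J+j+1) x = Sq^1 ((Sq^0)^j [q])`, with `Sq^2 ((Sq^0)^(J+j) x) · h_1` not divisible by
`h_0`, and with all classes of degree `(6, T + 1)`, `T = 2 ^ (J+j+1) t`, divisible by `h_0`, for all
`j`; or `(Sq^0)^J x` is of the form `ExcA` or `ExcB`. Conversely, if `(Sq^0)^J x` is of the form
`ExcA` or `ExcB` then `Sq^1` and `Sq^2` of `(Sq^0)^j x` vanish for all `j ≥ J`. -/
theorem result : ∃ U J : ℕ, ∀ t : ℕ, (∀ a u : ℕ, u ≤ U → t ≠ 2 ^ a * u) → ∀ p ∈ Zc 5 t,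
    ((∀ j, J ≤ j → p ^ 2 ^ j ∈ Bc 5 (2 ^ j * t)) ∨
    (∀ j, J ≤ j → jux 6 1 (sqN 1 5 (p ^ 2 ^ j)) (hCls 0) ∉ Bc 7 (2 ^ (j + 1) * t + 1)) ∨
    (∃ q ∈ Zc 4 (2 ^ J * t), ∀ j,
      p ^ 2 ^ (J + j + 1) + sqN 1 4 (q ^ 2 ^ j) ∈ Bc 5 (2 ^ (J + j + 1) * t) ∧
      (∀ w ∈ Zc 7 (2 ^ (J + j + 1) * t + 1),
        jux 7 1 (sqN 2 5 (p ^ 2 ^ (J + j))) (hCls 1) + jux 7 1 w (hCls 0) ∉
          Bc 8 (2 ^ (J + j + 1) * t + 2)) ∧
      ∀ z ∈ Zc 6 (2 ^ (J + j + 1) * t + 1), ∃ w ∈ Zc 5 (2 ^ (J + j + 1) * t),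
        z + jux 5 1 w (hCls 0) ∈ Bc 6 (2 ^ (J + j + 1) * t + 1)) ∨
    ExcA (2 ^ J * t) (p ^ 2 ^ J) ∨ ExcB (2 ^ J * t) (p ^ 2 ^ J)) ∧
    (ExcA (2 ^ J * t) (p ^ 2 ^ J) ∨ ExcB (2 ^ J * t) (p ^ 2 ^ J) → ∀ j, J ≤ j →
      sqN 1 5 (p ^ 2 ^ j) ∈ Bc 6 (2 ^ (j + 1) * t) ∧
        sqN 2 5 (p ^ 2 ^ j) ∈ Bc 7 (2 ^ (j + 1) * t)) :=
  tFin2

end Pool.Agent.Results.MP_701abf_gt.FiveLine
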