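import Pool.Agent.Work.MP_701abf_gt.FL.Main
import Pool.Agent.Work.MP_701abf_gt.FL.TwoAll

/-!
# MP_701abf_gt: the Adams 4-line

Let `Ext = Ext_A(F_2, F_2)`. There are `U`, `J` such that for every degree `t` which is not of the
form `2 ^ a u` with `u ≤ U`, and every class `x` in `Ext^{4,t}`, with Sq^0-family `x_0, x_1, …`, one
of the following holds.

1. `x_j = 0` for all `j ≥ J`.
2. `h_0 Sq^1 x_j ≠ 0` for all `j ≥ J`.
3. There is a class `y` on the 3-line such that for all `j ≥ 0`: `x_{J+j+1} = Sq^1 y_j`, the class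
   `h_1 Sq^2 x_{J+j}` is not divisible by `h_0`, and all classes in `Ext^{5,T+1}` are divisible by
   `h_0`, where `T = 2 ^ (J+j+1) t`.
4. `x_{J+j} = h_{a+j}² h_{b+j}²` for all `j ≥ 0`, for some `a`, `b`.
5. `x_{J+j+1} = Sq^1 (h_{a+j} h_{b+j} h_{c+j})` and `(h_{b+j} h_{c+j})² = 0` for all `j ≥ 0`, for
   some `a`, `b`, `c` with `c ≥ b + 2`.

By Bruner's formulas `d_2 x_{j+1} = h_0 Sq^1 x_j` for large `j`, and in case 3
`d_3 x_{J+j+1} = Sq^2 (d_2 y_j) = Sq^2 (h_0 x_{J+j}) = h_1 Sq^2 x_{J+j}` in `E_3` for large `j`,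
where the image of `d_2` in this degree consists of multiples of `h_0`, as
`Ext^{5,T+1} = h_0 Ext^{4,T}`. So in the first three cases only finitely many `x_j` survive.
By Adams's relations `h_b² h_c² = 0` with `c ≥ b + 2` holds only for `c = b + 2` and `c = b + 3`.
The excluded degrees `2 ^ a u`, `u ≤ U`, contain only finitely many Sq^0-families.

Definitions (cobar complex of the dual Steenrod algebra) are in
`Pool.Agent.Work.MP_701abf_gt.Cob.Defs`, `Pool.Agent.Work.MP_701abf_gt.Cob.OpsDefs`,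
`Pool.Agent.Work.MP_701abf_gt.Cob.SqTwoDefs` and `Pool.Agent.Work.MP_701abf_gt.FL.HDefs`.
-/

namespace Pool.Agent.Results.MP_701abf_gt.FourLine

open Pool.Agent.Work.MP_701abf_gt.Cob Pool.Agent.Work.MP_701abf_gt.FL

/-- There are `U`, `J` such that for every `t` which is not `2 ^ a u` with `u ≤ U` and every cocycle
`p` of degree `(4, t)` with class `x`: all `(Sq^0)^j x` with `j ≥ J` vanish; or
`Sq^1 ((Sq^0)^j x) · h_0 ≠ 0` for all `j ≥ J`; or there is a cocycle `q` of degree `(3, 2 ^ J t)`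
with `(Sq^0)^(J+j+1) x = Sq^1 ((Sq^0)^j [q])`, with `Sq^2 ((Sq^0)^(J+j) x) · h_1` not divisible by
`h_0`, and with all classes of degree `(5, T + 1)`, `T = 2 ^ (J+j+1) t`, divisible by `h_0`, for all
`j`; or there are `a`, `b` with `(Sq^0)^(J+j) x = h_{a+j}² h_{b+j}²` for all `j`; or there are `a`,
`b`, `c` with `b + 2 ≤ c` such that `(Sq^0)^(J+j+1) x = Sq^1 (h_{b+j} h_{c+j} h_{a+j})` and
`(h_{b+j} h_{c+j})² = 0` for all `j`. -/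
theorem result : ∃ U J : ℕ, ∀ t : ℕ, (∀ a u : ℕ, u ≤ U → t ≠ 2 ^ a * u) → ∀ p ∈ Zc 4 t,
    (∀ j, J ≤ j → p ^ 2 ^ j ∈ Bc 4 (2 ^ j * t)) ∨
    (∀ j, J ≤ j → jux 5 1 (sqOne 4 (p ^ 2 ^ j)) (hCls 0) ∉ Bc 6 (2 ^ (j + 1) * t + 1)) ∨
    (∃ q ∈ Zc 3 (2 ^ J * t), ∀ j,
      p ^ 2 ^ (J + j + 1) + sqOne 3 (q ^ 2 ^ j) ∈ Bc 4 (2 ^ (J + j + 1) * t) ∧
      (∀ w ∈ Zc 6 (2 ^ (J + j + 1) * t + 1),
        jux 6 1 (sqTwo 4 (p ^ 2 ^ (J + j))) (hCls 1) + jux 6 1 w (hCls 0) ∉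
          Bc 7 (2 ^ (J + j + 1) * t + 2)) ∧
      ∀ z ∈ Zc 5 (2 ^ (J + j + 1) * t + 1), ∃ w ∈ Zc 4 (2 ^ (J + j + 1) * t),
        z + jux 4 1 w (hCls 0) ∈ Bc 5 (2 ^ (J + j + 1) * t + 1)) ∨
    (∃ a b : ℕ, 2 ^ (a + 1) + 2 ^ (b + 1) = 2 ^ J * t ∧ ∀ j,
      p ^ 2 ^ (J + j) + jux 2 2 (jux 1 1 (hCls (a + j)) (hCls (a + j)))
        (jux 1 1 (hCls (b + j)) (hCls (b + j))) ∈ Bc 4 (2 ^ (J + j) * t)) ∨
    ∃ a b c : ℕ, b + 2 ≤ c ∧ 2 ^ a + 2 ^ b + 2 ^ c = 2 ^ J * t ∧ ∀ j,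
      p ^ 2 ^ (J + j + 1) + sqOne 3 (jux 2 1 (jux 1 1 (hCls (b + j)) (hCls (c + j)))
        (hCls (a + j))) ∈ Bc 4 (2 ^ (J + j + 1) * t) ∧
      jux 2 2 (jux 1 1 (hCls (b + j)) (hCls (c + j))) (jux 1 1 (hCls (b + j)) (hCls (c + j))) ∈
        Bc 4 (2 ^ (j + 1) * (2 ^ b + 2 ^ c)) :=
  Pool.Agent.Work.MP_701abf_gt.Sq2.FL.four_line' (Pool.Agent.Work.MP_701abf_gt.Sq2.FL.four_line
    Pool.Agent.Work.MP_701abf_gt.Sq2.FL.two_pow Pool.Agent.Work.MP_701abf_gt.Sq2.FL.two_inj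
    Pool.Agent.Work.MP_701abf_gt.Sq2.FL.two_span)

end Pool.Agent.Results.MP_701abf_gt.FourLine
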