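import Pool.Agent.Work.MP_701abf_gt.SN.Final2

namespace Pool.Agent.Results.MP_701abf_gt.TwoThirdsLaw

open Pool.Agent.Work.MP_701abf_gt.Cob Pool.Agent.Work.MP_701abf_gt.Sq2
open Pool.Agent.Work.MP_701abf_gt.SN

/-- **The two-thirds law.**  Let `r = s + 1`, `p ∈ Zc r t` a cocycle in the cobar complex of the dual
Steenrod algebra; its family under `Sq^0` is `p ^ 2 ^ j`.  Outside the degrees `t` which are sums of
`r / 3` numbers `2 ^ a u`, `u ≤ U`, the kernel of `Sq^1` is the image of `Sq^1` (and `h_0 Sq^1` is not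
zero on the rest).  Outside the degrees which are sums of `e = max (2 r / 3) (r + 1 - 2 ^ k)` such
numbers, the family is zero from index `J` on or, for some `i < k`, the operations `Sq^(2^l)`, `l < i`,
vanish on it and `h_i Sq^(2^i)` is not in the ideal of `h_0, ..., h_(i-1)`.  The exponent `e` of the
number of the exceptional degrees is optimal for the detection by `Sq^m`, `1 ≤ m < 2 ^ k`.  The groups
from which a differential of the Adams spectral sequence could hit a class in a degree `T > 0`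
divisible by `2 ^ J` are zero. -/
theorem result (s k e : ℕ) (he : e = max (2 * (s + 1) / 3) (s + 2 - 2 ^ k)) :
    ∃ U J C D : ℕ,
    (∀ f ≤ s + 1, ∀ n, 1 ≤ n → {t | t < 2 ^ n ∧ Few U f t}.ncard ≤ C * n ^ f) ∧
    (∀ n, D ≤ n →
      n ^ (s + 1) ≤ D * {t | t < 2 ^ n ∧ ¬ Zc (s + 1) t ≤ Bc (s + 1) t}.ncard) ∧
    (1 ≤ s → ∀ n, D ≤ n → n ^ e ≤ D * {t | t < 2 ^ n ∧ ∃ p ∈ Zc (s + 1) t, ∀ j,
      p ^ 2 ^ j ∉ Bc (s + 1) (2 ^ j * t) ∧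
      ∀ m, 1 ≤ m → m < 2 ^ k → sqN m (s + 1) (p ^ 2 ^ j) ∈
        Bc (s + 1 + m) (2 ^ (j + 1) * t)}.ncard) ∧
    (∀ T : ℕ, 0 < T → 2 ^ J ∣ T →
      (∀ z ∈ Zc (s + 2) (T + 1), ∃ w ∈ Zc (s + 1) T,
        z + jux (s + 1) 1 w (xi 0 1) ∈ Bc (s + 2) (T + 1)) ∧
      ∀ q, 2 ≤ q → q ≤ s + 1 → Zc (s + 1 - q) (T + 1 - q) ≤ Bc (s + 1 - q) (T + 1 - q)) ∧
    (∀ t : ℕ, ¬ Few U ((s + 1) / 3) t → ∀ p ∈ Zc (s + 1) t,
      (∀ j, J ≤ j → jux (s + 2) 1 (sqN 1 (s + 1) (p ^ 2 ^ j)) (xi 0 1) ∉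
        Bc (s + 3) (2 ^ (j + 1) * t + 1)) ∨
      ∃ q ∈ Zc s (2 ^ J * t), ∀ j,
        p ^ 2 ^ (J + j + 1) + sqN 1 s (q ^ 2 ^ j) ∈ Bc (s + 1) (2 ^ (J + j + 1) * t)) ∧
    ∀ t : ℕ, ¬ Few U e t → ∀ p ∈ Zc (s + 1) t,
      (∀ j, J ≤ j → p ^ 2 ^ j ∈ Bc (s + 1) (2 ^ j * t)) ∨
      ∃ i < k, ∀ j, J ≤ j →
        (∀ l < i, sqN (2 ^ l) (s + 1) (p ^ 2 ^ j) ∈ Bc (s + 1 + 2 ^ l) (2 ^ (j + 1) * t)) ∧
        ∀ w : ℕ → Cobar (s + 1 + 2 ^ i),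
          (∀ l < i, w l ∈ Zc (s + 1 + 2 ^ i) (2 ^ (j + 1) * t + (2 ^ i - 2 ^ l))) →
          jux (s + 1 + 2 ^ i) 1 (sqN (2 ^ i) (s + 1) (p ^ 2 ^ j)) (xi 0 1 ^ 2 ^ i) +
            ∑ l ∈ Finset.range i, jux (s + 1 + 2 ^ i) 1 (w l) (xi 0 1 ^ 2 ^ l) ∉
              Bc (s + 1 + 2 ^ i + 1) (2 ^ (j + 1) * t + 2 ^ i) :=
  two_thirds4 s k e he

end Pool.Agent.Results.MP_701abf_gt.TwoThirdsLaw
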