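import Pool.Agent.Work.MP_701abf_gt.TwT.AllU

namespace Pool.Agent.Results.MP_701abf_gt.UndetectedClasses

open Pool.Agent.Work.MP_701abf_gt.Cob Pool.Agent.Work.MP_701abf_gt.Sq2
open Pool.Agent.Work.MP_701abf_gt.SN Pool.Agent.Work.MP_701abf_gt.TwT

/-- **The undetected classes at the critical level.**  Let `s = c + d` be a line, `k ≥ 1`, and let
`c = max (2 s / 3) (s + 1 - 2 ^ k)` be the exponent of the two-thirds law.  `Hid k s T x` means that
`h_i Sq^(2^i) x` is in the ideal of `h_0, ..., h_(i-1)`, for all `i < k`.  The degrees at the critical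
level are the sums `T` of `c` powers `2^(a i)` of two with gaps `a i - a (i + 1) ≥ L` and `a i ≥ J`.
There the classes `x` with `Hid k s T x` are computed.  If `2 d < c` (then `d = 2^k - 1`), they are `0` and
one other class, `Sq^d (h_(a_0-1) ... h_(a_(c-1)-1))`, and `Sq^n` vanishes on it for `1 ≤ n < 2^k`.  If
`c ≤ 2 d`, they form a group of dimension `C(c,d) - C(c,d+1)`, on which all `Sq^n`, `n ≥ 1`, vanish, with
a basis of classes `und c d a π` for involutions `π` of the `c` exponents with `2 d - c` fixed points: the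
products of the `h_(a_i-1)^2` over the fixed points and of the `Sq^1 (h_(a_i-1) h_(a_j-1))` over the
2-cycles.  If `2 d ≤ c + 1` (that is, unless `s` is `1` modulo `3` and `s ≤ 3 * 2 ^ k - 5`), all other
degrees which are not sums of `c - 1` numbers `2 ^ a u`, `u ≤ U`, have no such class `x ≠ 0`. -/
theorem result (k c d : ℕ) (hk : 1 ≤ k) (hs : 2 ≤ c + d)
    (hc : c = max (2 * (c + d) / 3) (c + d + 1 - 2 ^ k)) :
    ∃ U J L C₀ : ℕ, ∃ π : Fin (c.choose d - c.choose (d + 1)) → Equiv.Perm (Fin c), 1 ≤ J ∧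
    (∀ n, 1 ≤ n → {t : ℕ | t < 2 ^ n ∧ Few U (c - 1) t}.ncard ≤ C₀ * n ^ (c - 1)) ∧
    (2 * d ≤ c + 1 → ∀ t : ℕ, ¬ Few U (c - 1) t →
      (¬ ∃ a : ℕ → ℕ, (∀ i, i + 1 < c → a (i + 1) + L ≤ a i) ∧
        t = ∑ i ∈ Finset.range c, 2 ^ a i) →
      ∀ b, J ≤ b → ∀ x ∈ Zc (c + d) (2 ^ b * t), Hid k (c + d) (2 ^ b * t) x →
        x ∈ Bc (c + d) (2 ^ b * t)) ∧
    ∀ a : ℕ → ℕ, (∀ i, i + 1 < c → a (i + 1) + L ≤ a i) → (∀ i, i < c → J ≤ a i) →
      ∀ T, T = ∑ i ∈ Finset.range c, 2 ^ a i →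
      (2 * d < c →
        sqN d c (hword c fun i => a i - 1) ∈ Zc (c + d) T ∧
        sqN d c (hword c fun i => a i - 1) ∉ Bc (c + d) T ∧
        ∀ x ∈ Zc (c + d) T,
          (Hid k (c + d) T x ↔
            x ∈ Bc (c + d) T ∨ x + sqN d c (hword c fun i => a i - 1) ∈ Bc (c + d) T) ∧
          (Hid k (c + d) T x →
            ∀ n, 1 ≤ n → n < 2 ^ k → sqN n (c + d) x ∈ Bc (c + d + n) (2 * T))) ∧
      (c ≤ 2 * d →
        (∀ i, π i * π i = 1 ∧ c + (Finset.univ.filter fun v => π i v = v).card = 2 * d ∧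
          und c d a (π i) ∈ Zc (c + d) T) ∧
        (∀ D : Finset (Fin (c.choose d - c.choose (d + 1))), D.Nonempty →
          ∑ i ∈ D, und c d a (π i) ∉ Bc (c + d) T) ∧
        ∀ x ∈ Zc (c + d) T,
          (Hid k (c + d) T x ↔ ∃ D : Finset (Fin (c.choose d - c.choose (d + 1))),
            x + ∑ i ∈ D, und c d a (π i) ∈ Bc (c + d) T) ∧
          (Hid k (c + d) T x → ∀ n, 1 ≤ n → sqN n (c + d) x ∈ Bc (c + d + n) (2 * T))) :=
  tFin k c d hk hs hc

end Pool.Agent.Results.MP_701abf_gt.UndetectedClasses
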